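import Pool.Agent.V7H47.TC.Cover
import Pool.Agent.Helper717.Hull2

/-!
# The area of a polygon
-/

set_option autoImplicit false

open Set MeasureTheory

namespace Pool.Agent.V7H47.TC

open Pool.Agent.Helper717.Hull1 Pool.Agent.Helper717.Hull2

/-- the point `(a / Q, b / Q)` -/
noncomputable def pt (a b Q : ℤ) : Plane := !₂[(a : ℝ) / Q, (b : ℝ) / Q]

/-- cross product with a point -/
def cross (a b : ℝ) (p : Plane) : ℝ := a * p 1 - b * p 0

variable {n : ℕ}

/-- the check of the vertices `(V i, W i)`, in counterclockwise order -/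
def vOK [NeZero n] (X Y H V W : Fin n → ℤ) : Bool :=
  (List.finRange n).all fun i =>
    decide (0 < H i) && decide (H i ≤ X i * V i + Y i * W i) &&
    decide (H i ≤ X i * V (i + 1) + Y i * W (i + 1)) && decide (0 < V i * W (i + 1) - W i * V (i + 1))

lemma reach [NeZero n] (i j : Fin n) : ∃ m : ℕ, (fun j : Fin n => j + 1)^[m + 1] i = j := by
  have hn : 0 < n := Nat.pos_of_ne_zero (NeZero.ne n)
  have key : ∀ m : ℕ, (((fun j : Fin n => j + 1)^[m] i).val) = (i.val + m) % n := by
    intro m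
    induction m with
    | zero => simp [Nat.mod_eq_of_lt i.isLt]
    | succ m ih =>
      rw [Function.iterate_succ_apply']
      show ((((fun j : Fin n => j + 1)^[m] i) + 1 : Fin n).val) = _
      rw [Fin.val_add, ih, Fin.val_one', Nat.add_mod, Nat.mod_mod, Nat.mod_mod, ← Nat.add_mod,
        Nat.add_assoc]
  refine ⟨(n - i.val) + j.val + (n - 1), ?_⟩
  apply Fin.ext
  rw [key]
  have e : i.val + ((n - i.val) + j.val + (n - 1) + 1) = j.val + n + n := by
    have := i.isLt
    omega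
  rw [e, Nat.add_mod_right, Nat.add_mod_right, Nat.mod_eq_of_lt j.isLt]

/-- some sector contains the point -/
lemma sector [NeZero n] {V W : Fin n → ℤ} {a b c : Fin n}
    (h1 : 0 < V a * W b - W a * V b) (h2 : 0 < V b * W c - W b * V c)
    (h3 : 0 < V c * W a - W c * V a) (p : Plane) :
    ∃ i, 0 ≤ cross (V i) (W i) p ∧ cross (V (i + 1)) (W (i + 1)) p ≤ 0 := by
  by_contra hcon
  push Not at hcon
  have hdep : ((V b * W c - W b * V c : ℤ) : ℝ) * cross (V a) (W a) p +
      ((V c * W a - W c * V a : ℤ) : ℝ) * cross (V b) (W b) p +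
      ((V a * W b - W a * V b : ℤ) : ℝ) * cross (V c) (W c) p = 0 := by
    push_cast; unfold cross; ring
  have h1' : (0 : ℝ) < ((V a * W b - W a * V b : ℤ) : ℝ) := by exact_mod_cast h1
  have h2' : (0 : ℝ) < ((V b * W c - W b * V c : ℤ) : ℝ) := by exact_mod_cast h2
  have h3' : (0 : ℝ) < ((V c * W a - W c * V a : ℤ) : ℝ) := by exact_mod_cast h3
  by_cases hex : ∃ i, 0 ≤ cross (V i) (W i) p
  · obtain ⟨i, hi⟩ := hex
    have step : ∀ m : ℕ, 0 < cross (V ((fun j : Fin n => j + 1)^[m + 1] i))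
        (W ((fun j : Fin n => j + 1)^[m + 1] i)) p := by
      intro m
      induction m with
      | zero => simpa using hcon i hi
      | succ m ih =>
        have := hcon _ ih.le
        rw [Function.iterate_succ_apply']
        exact this
    have all : ∀ j, 0 < cross (V j) (W j) p := by
      intro j
      obtain ⟨m, hm⟩ := reach i j
      have := step m
      rwa [hm] at this
    have := all a
    have := all b
    have := all c
    nlinarith [mul_pos h2' (all a), mul_pos h3' (all b), mul_pos h1' (all c)]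
  · push Not at hex
    nlinarith [mul_pos h2' (neg_pos.2 (hex a)), mul_pos h3' (neg_pos.2 (hex b)),
      mul_pos h1' (neg_pos.2 (hex c))]

lemma orient_pt (a b c d Q : ℤ) : orient 0 (pt a b Q) (pt c d Q) =
    ((a * d - b * c : ℤ) : ℝ) / ((Q : ℝ) ^ 2) := by
  simp only [orient, pt, PiLp.zero_apply, Matrix.cons_val_zero, Matrix.cons_val_one]
  push_cast
  ring

/-- the polygon lies in the union of the triangles with apex `0` -/
lemma poly_sub [NeZero n] {X Y H V W : Fin n → ℤ} {Q : ℤ} (hQ : 0 < Q)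
    (hv : ∀ i, 0 < H i ∧ H i ≤ X i * V i + Y i * W i ∧
      H i ≤ X i * V (i + 1) + Y i * W (i + 1) ∧ 0 < V i * W (i + 1) - W i * V (i + 1))
    {a b c : Fin n} (h1 : 0 < V a * W b - W a * V b) (h2 : 0 < V b * W c - W b * V c)
    (h3 : 0 < V c * W a - W c * V a) :
    poly X Y H Q ⊆ ⋃ i : Fin n,
      convexHull ℝ ({0, pt (V i) (W i) Q, pt (V (i + 1)) (W (i + 1)) Q} : Set E2) := by
  have hQr : (0 : ℝ) < Q := by exact_mod_cast hQ
  intro p hp
  obtain ⟨i, hi1, hi2⟩ := sector h1 h2 h3 p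
  obtain ⟨hH, hA, hB, hD⟩ := hv i
  have hp' := hp i
  rw [mem_iUnion]
  refine ⟨i, ?_⟩
  set D : ℝ := (V i : ℝ) * W (i + 1) - W i * V (i + 1) with hDdef
  have hD' : 0 < D := by rw [hDdef]; exact_mod_cast hD
  have hH' : (0 : ℝ) < H i := by exact_mod_cast hH
  have hA' : (H i : ℝ) ≤ X i * V i + Y i * W i := by exact_mod_cast hA
  have hB' : (H i : ℝ) ≤ X i * V (i + 1) + Y i * W (i + 1) := by exact_mod_cast hB
  set s : ℝ := -(cross (V (i + 1)) (W (i + 1)) p) * Q / D with hs
  set t : ℝ := cross (V i) (W i) p * Q / D with ht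
  have hs0 : 0 ≤ s := by
    rw [hs]; exact div_nonneg (mul_nonneg (neg_nonneg.2 hi2) hQr.le) hD'.le
  have ht0 : 0 ≤ t := by
    rw [ht]; exact div_nonneg (mul_nonneg hi1 hQr.le) hD'.le
  have px : p 0 = s * (V i / Q) + t * (V (i + 1) / Q) := by
    rw [hs, ht]
    field_simp
    simp only [cross, hDdef]
    ring
  have py : p 1 = s * (W i / Q) + t * (W (i + 1) / Q) := by
    rw [hs, ht]
    field_simp
    simp only [cross, hDdef]
    ring
  have hst : s + t ≤ 1 := by
    have h4 : (s + t) * (H i / Q) ≤ H i / Q := by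
      calc (s + t) * (H i / Q) = s * (H i / Q) + t * (H i / Q) := by ring
        _ ≤ s * ((X i * V i + Y i * W i) / Q) + t * ((X i * V (i + 1) + Y i * W (i + 1)) / Q) := by
          gcongr
        _ = dot (X i) (Y i) p := by
          unfold dot
          rw [px, py]; ring
        _ ≤ H i / Q := hp'
    have h5 : (0 : ℝ) < H i / Q := by positivity
    nlinarith
  have hconv := convex_convexHull ℝ ({0, pt (V i) (W i) Q, pt (V (i + 1)) (W (i + 1)) Q} : Set E2)
  have m0 := subset_convexHull ℝ ({0, pt (V i) (W i) Q, pt (V (i + 1)) (W (i + 1)) Q} : Set E2)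
    (by simp : (0 : E2) ∈ _)
  have m1 := subset_convexHull ℝ ({0, pt (V i) (W i) Q, pt (V (i + 1)) (W (i + 1)) Q} : Set E2)
    (by simp : pt (V i) (W i) Q ∈ _)
  have m2 := subset_convexHull ℝ ({0, pt (V i) (W i) Q, pt (V (i + 1)) (W (i + 1)) Q} : Set E2)
    (by simp : pt (V (i + 1)) (W (i + 1)) Q ∈ _)
  have hmem := hconv.sum_mem (t := Finset.univ) (w := ![1 - s - t, s, t])
    (z := ![0, pt (V i) (W i) Q, pt (V (i + 1)) (W (i + 1)) Q])
    (by intro j _; fin_cases j <;> simp <;> linarith)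
    (by simp [Fin.sum_univ_three]; ring) (by intro j _; fin_cases j <;> simp [m0, m1, m2])
  have e : p = ∑ j : Fin 3, (![1 - s - t, s, t] j) •
      (![(0 : E2), pt (V i) (W i) Q, pt (V (i + 1)) (W (i + 1)) Q] j) := by
    rw [Fin.sum_univ_three]
    ext j
    fin_cases j
    · simp [pt, px]
    · simp [pt, py]
  rw [e]
  exact hmem

lemma poly_compact [NeZero n] {X Y H V W : Fin n → ℤ} {Q : ℤ} (hQ : 0 < Q)
    (hv : ∀ i, 0 < H i ∧ H i ≤ X i * V i + Y i * W i ∧
      H i ≤ X i * V (i + 1) + Y i * W (i + 1) ∧ 0 < V i * W (i + 1) - W i * V (i + 1))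
    {a b c : Fin n} (h1 : 0 < V a * W b - W a * V b) (h2 : 0 < V b * W c - W b * V c)
    (h3 : 0 < V c * W a - W c * V a) : IsCompact (poly X Y H Q) := by
  refine Metric.isCompact_of_isClosed_isBounded ?_ ?_
  · have : poly X Y H Q = ⋂ i, {p | dot (X i) (Y i) p ≤ (H i : ℝ) / Q} := by
      ext p; simp [poly]
    rw [this]
    exact isClosed_iInter fun i => isClosed_le (continuous_dot _ _) continuous_const
  · refine Bornology.IsBounded.subset ?_ (poly_sub hQ hv h1 h2 h3)
    rw [Bornology.isBounded_iUnion]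
    intro i
    exact isBounded_convexHull.2 (Set.Finite.isBounded (by simp))

/-- **Area of the polygon.** -/
theorem area_le [NeZero n] {X Y H V W : Fin n → ℤ} {Q : ℤ} (hQ : 0 < Q)
    (hv : ∀ i, 0 < H i ∧ H i ≤ X i * V i + Y i * W i ∧
      H i ≤ X i * V (i + 1) + Y i * W (i + 1) ∧ 0 < V i * W (i + 1) - W i * V (i + 1))
    {a b c : Fin n} (h1 : 0 < V a * W b - W a * V b) (h2 : 0 < V b * W c - W b * V c)
    (h3 : 0 < V c * W a - W c * V a) :
    volume (poly X Y H Q) ≤
      ENNReal.ofReal (((∑ i, (V i * W (i + 1) - W i * V (i + 1)) : ℤ) : ℝ) / (2 * (Q : ℝ) ^ 2)) := by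
  have hQr : (0 : ℝ) < Q := by exact_mod_cast hQ
  have hsub := poly_sub (X := X) (Y := Y) hQ hv h1 h2 h3
  refine (measure_mono hsub).trans ((measure_iUnion_fintype_le _ _).trans ?_)
  have hterm : ∀ i : Fin n,
      volume (convexHull ℝ ({0, pt (V i) (W i) Q, pt (V (i + 1)) (W (i + 1)) Q} : Set E2)) =
      ENNReal.ofReal (((V i * W (i + 1) - W i * V (i + 1) : ℤ) : ℝ) / (2 * (Q : ℝ) ^ 2)) := by
    intro i
    have hpos : 0 < orient 0 (pt (V i) (W i) Q) (pt (V (i + 1)) (W (i + 1)) Q) := by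
      rw [orient_pt]
      have : (0 : ℝ) < ((V i * W (i + 1) - W i * V (i + 1) : ℤ) : ℝ) := by exact_mod_cast (hv i).2.2.2
      positivity
    rw [tri_vol_pos _ _ _ hpos, orient_pt]
    congr 1
    field_simp
  rw [Finset.sum_congr rfl fun i _ => hterm i, ← ENNReal.ofReal_sum_of_nonneg]
  · apply ENNReal.ofReal_le_ofReal
    rw [← Finset.sum_div]
    push_cast
    exact le_rfl
  · intro i _
    have : (0 : ℝ) < ((V i * W (i + 1) - W i * V (i + 1) : ℤ) : ℝ) := by exact_mod_cast (hv i).2.2.2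
    positivity

lemma poly_convex (X Y H : Fin n → ℤ) (Q : ℤ) : Convex ℝ (poly X Y H Q) := by
  have : poly X Y H Q = ⋂ i, {p | dot (X i) (Y i) p ≤ (H i : ℝ) / Q} := by
    ext p; simp [poly]
  rw [this]
  exact convex_iInter fun i => convex_half _ _ _

end Pool.Agent.V7H47.TC
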