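import Pool.Agent.V7H47.TC.Geo

/-!
# The criterion for polygons
-/

set_option autoImplicit false

open Set MeasureTheory

namespace Pool.Agent.V7H47.TC

variable {n : ℕ}

/-- The polygon with the edge normals `(X i, Y i)`. -/
def poly (X Y H : Fin n → ℤ) (Q : ℤ) : Set Plane :=
  {p | ∀ i, dot (X i) (Y i) p ≤ (H i : ℝ) / Q}

/-- the check for three normals: numbers `x, y, h` for each -/
def good (Q x₁ y₁ h₁ x₂ y₂ h₂ x₃ y₃ h₃ : ℤ) : Bool :=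
  let c₁ := x₂ * y₃ - y₂ * x₃
  let c₂ := x₃ * y₁ - y₃ * x₁
  let c₃ := x₁ * y₂ - y₁ * x₂
  let S := c₁ * h₁ + c₂ * h₂ + c₃ * h₃
  decide (0 < c₁) && decide (0 < c₂) && decide (0 < c₃) && decide (0 ≤ S) &&
  (decide ((x₁ ^ 2 + y₁ ^ 2) * (x₂ ^ 2 + y₂ ^ 2) * (x₃ ^ 2 + y₃ ^ 2) * Q ^ 2 ≤ 4 * S ^ 2) ||
   (decide (((c₁ * x₁) ^ 2 + (c₁ * y₁) ^ 2) * Q ^ 2 ≤ 4 * S ^ 2) &&
     decide (((c₁ * x₁ + 2 * (c₂ * x₂)) ^ 2 + (c₁ * y₁ + 2 * (c₂ * y₂)) ^ 2) * Q ^ 2 ≤ 4 * S ^ 2)) ||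
   (decide (((c₂ * x₂) ^ 2 + (c₂ * y₂) ^ 2) * Q ^ 2 ≤ 4 * S ^ 2) &&
     decide (((2 * (c₁ * x₁) + c₂ * x₂) ^ 2 + (2 * (c₁ * y₁) + c₂ * y₂) ^ 2) * Q ^ 2 ≤ 4 * S ^ 2)) ||
   (decide (((c₁ * x₁ + c₂ * x₂) ^ 2 + (c₁ * y₁ + c₂ * y₂) ^ 2) * Q ^ 2 ≤ 4 * S ^ 2) &&
     decide (((c₁ * x₁ - c₂ * x₂) ^ 2 + (c₁ * y₁ - c₂ * y₂) ^ 2) * Q ^ 2 ≤ 4 * S ^ 2)))

/-- `(d, e)` has positive inner product with the three normals -/
def dir (x₁ y₁ x₂ y₂ x₃ y₃ d e : ℤ) : Bool :=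
  decide (0 < x₁ * d + y₁ * e) && decide (0 < x₂ * d + y₂ * e) && decide (0 < x₃ * d + y₃ * e)

def ok (Q x₁ y₁ h₁ x₂ y₂ h₂ x₃ y₃ h₃ : ℤ) : Bool :=
  dir x₁ y₁ x₂ y₂ x₃ y₃ (x₁ + x₃) (y₁ + y₃) || dir x₁ y₁ x₂ y₂ x₃ y₃ (x₁ + x₂) (y₁ + y₂) ||
  dir x₁ y₁ x₂ y₂ x₃ y₃ (x₂ + x₃) (y₂ + y₃) || good Q x₁ y₁ h₁ x₂ y₂ h₂ x₃ y₃ h₃

lemma of_dir {x₁ y₁ x₂ y₂ x₃ y₃ d e : ℤ} (h : dir x₁ y₁ x₂ y₂ x₃ y₃ d e = true) (b₁ b₂ b₃ : ℝ) :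
    ∃ v : Plane, dot x₁ y₁ v ≤ b₁ ∧ dot x₂ y₂ v ≤ b₂ ∧ dot x₃ y₃ v ≤ b₃ := by
  simp only [dir, Bool.and_eq_true, decide_eq_true_eq] at h
  obtain ⟨⟨h1, h2⟩, h3⟩ := h
  exact three_dir (d := d) (e := e) (by exact_mod_cast h1) (by exact_mod_cast h2)
    (by exact_mod_cast h3)

lemma of_good {Q x₁ y₁ h₁ x₂ y₂ h₂ x₃ y₃ h₃ : ℤ} (hQ : 0 < Q)
    (h : good Q x₁ y₁ h₁ x₂ y₂ h₂ x₃ y₃ h₃ = true) {p q r : Plane}
    (hP : dist p q + dist q r + dist r p ≤ 1) :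
    ∃ v : Plane, dot x₁ y₁ v ≤ (h₁ : ℝ) / Q - dot x₁ y₁ p ∧ dot x₂ y₂ v ≤ (h₂ : ℝ) / Q - dot x₂ y₂ q ∧
      dot x₃ y₃ v ≤ (h₃ : ℝ) / Q - dot x₃ y₃ r := by
  simp only [good, Bool.and_eq_true, Bool.or_eq_true, decide_eq_true_eq] at h
  obtain ⟨⟨⟨⟨hc1, hc2⟩, hc3⟩, hS⟩, h⟩ := h
  have hQr : (0 : ℝ) < Q := by exact_mod_cast hQ
  set c₁ : ℝ := (x₂ : ℝ) * y₃ - y₂ * x₃ with e1
  set c₂ : ℝ := (x₃ : ℝ) * y₁ - y₃ * x₁ with e2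
  set c₃ : ℝ := (x₁ : ℝ) * y₂ - y₁ * x₂ with e3
  set S : ℝ := c₁ * h₁ + c₂ * h₂ + c₃ * h₃ with eS
  have hc1' : 0 < c₁ := by rw [e1]; exact_mod_cast hc1
  have hc2' : 0 < c₂ := by rw [e2]; exact_mod_cast hc2
  have hc3' : 0 < c₃ := by rw [e3]; exact_mod_cast hc3
  have hS' : 0 ≤ S := by rw [eS, e1, e2, e3]; exact_mod_cast hS
  have hM : 0 ≤ S / Q := by positivity
  have hM2 : ∀ {z : ℝ}, z * (Q : ℝ) ^ 2 ≤ 4 * S ^ 2 → z / 4 ≤ (S / Q) ^ 2 := by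
    intro z hz
    rw [div_pow, le_div_iff₀ (by positivity)]
    linarith
  -- the centre
  have centre : ∃ a b : ℝ, a ^ 2 + b ^ 2 ≤ (S / Q) ^ 2 ∧
      (a + c₂ * x₂) ^ 2 + (b + c₂ * y₂) ^ 2 ≤ (S / Q) ^ 2 ∧
      (a - c₁ * x₁) ^ 2 + (b - c₁ * y₁) ^ 2 ≤ (S / Q) ^ 2 := by
    have s1 : c₁ * x₁ + c₂ * x₂ = -(c₃ * x₃) := by rw [e1, e2, e3]; ring
    have s2 : c₁ * y₁ + c₂ * y₂ = -(c₃ * y₃) := by rw [e1, e2, e3]; ring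
    rcases h with ((h | h) | h) | h
    · have h' : ((x₁ : ℝ) ^ 2 + (y₁ : ℝ) ^ 2) * ((x₂ : ℝ) ^ 2 + (y₂ : ℝ) ^ 2) *
          ((x₃ : ℝ) ^ 2 + (y₃ : ℝ) ^ 2) * (Q : ℝ) ^ 2 ≤ 4 * S ^ 2 := by
        rw [eS, e1, e2, e3]; exact_mod_cast h
      have h2 := hM2 h'
      have cr : c₁ * x₁ * (c₂ * y₂) - c₁ * y₁ * (c₂ * x₂) = c₁ * c₂ * c₃ := by rw [e3]; ring
      refine circum (by rw [cr]; positivity) ?_
      rw [cr, s1, s2]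
      have h3 : (0 : ℝ) ≤ 4 * (c₁ * c₂ * c₃) ^ 2 := by positivity
      have h4 := mul_le_mul_of_nonneg_left h2 h3
      refine le_trans (le_of_eq ?_) h4
      ring
    · have h1 := h.1
      have h2 := h.2
      have h1' : ((c₁ * x₁) ^ 2 + (c₁ * y₁) ^ 2) * (Q : ℝ) ^ 2 ≤ 4 * S ^ 2 := by
        rw [eS, e1, e2, e3]; exact_mod_cast h1
      have h2' : ((c₁ * x₁ + 2 * (c₂ * x₂)) ^ 2 + (c₁ * y₁ + 2 * (c₂ * y₂)) ^ 2) * (Q : ℝ) ^ 2 ≤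
          4 * S ^ 2 := by
        rw [eS, e1, e2, e3]; exact_mod_cast h2
      refine ⟨c₁ * x₁ / 2, c₁ * y₁ / 2, ?_, ?_, ?_⟩
      · refine le_trans (le_of_eq ?_) (hM2 h1'); ring
      · refine le_trans (le_of_eq ?_) (hM2 h2'); ring
      · refine le_trans (le_of_eq ?_) (hM2 h1'); ring
    · have h1 := h.1
      have h2 := h.2
      have h1' : ((c₂ * x₂) ^ 2 + (c₂ * y₂) ^ 2) * (Q : ℝ) ^ 2 ≤ 4 * S ^ 2 := by
        rw [eS, e1, e2, e3]; exact_mod_cast h1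
      have h2' : ((2 * (c₁ * x₁) + c₂ * x₂) ^ 2 + (2 * (c₁ * y₁) + c₂ * y₂) ^ 2) * (Q : ℝ) ^ 2 ≤
          4 * S ^ 2 := by
        rw [eS, e1, e2, e3]; exact_mod_cast h2
      refine ⟨-(c₂ * x₂ / 2), -(c₂ * y₂ / 2), ?_, ?_, ?_⟩
      · refine le_trans (le_of_eq ?_) (hM2 h1'); ring
      · refine le_trans (le_of_eq ?_) (hM2 h1'); ring
      · refine le_trans (le_of_eq ?_) (hM2 h2'); ring
    · have h1 := h.1
      have h2 := h.2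
      have h1' : ((c₁ * x₁ + c₂ * x₂) ^ 2 + (c₁ * y₁ + c₂ * y₂) ^ 2) * (Q : ℝ) ^ 2 ≤ 4 * S ^ 2 := by
        rw [eS, e1, e2, e3]; exact_mod_cast h1
      have h2' : ((c₁ * x₁ - c₂ * x₂) ^ 2 + (c₁ * y₁ - c₂ * y₂) ^ 2) * (Q : ℝ) ^ 2 ≤ 4 * S ^ 2 := by
        rw [eS, e1, e2, e3]; exact_mod_cast h2
      refine ⟨(c₁ * x₁ - c₂ * x₂) / 2, (c₁ * y₁ - c₂ * y₂) / 2, ?_, ?_, ?_⟩
      · refine le_trans (le_of_eq ?_) (hM2 h2'); ring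
      · refine le_trans (le_of_eq ?_) (hM2 h1'); ring
      · refine le_trans (le_of_eq ?_) (hM2 h1'); ring
  obtain ⟨a, b, hA, hB, hC⟩ := centre
  have key := three_dot (x₁ := c₁ * x₁) (y₁ := c₁ * y₁) (x₂ := c₂ * x₂) (y₂ := c₂ * y₂)
    (x₃ := c₃ * x₃) (y₃ := c₃ * y₃) hM (by rw [e1, e2, e3]; ring) (by rw [e1, e2, e3]; ring)
    hA hB hC p q r hP
  refine three_half (x₁ := x₁) (y₁ := y₁) (x₂ := x₂) (y₂ := y₂) (x₃ := x₃) (y₃ := y₃) hc3' ?_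
  have e4 : (x₂ * y₃ - y₂ * x₃ : ℝ) * ((h₁ : ℝ) / Q - dot x₁ y₁ p) +
      (x₃ * y₁ - y₃ * x₁) * ((h₂ : ℝ) / Q - dot x₂ y₂ q) +
      (x₁ * y₂ - y₁ * x₂) * ((h₃ : ℝ) / Q - dot x₃ y₃ r) =
      S / Q * 1 - (dot (c₁ * x₁) (c₁ * y₁) p + dot (c₂ * x₂) (c₂ * y₂) q +
        dot (c₃ * x₃) (c₃ * y₃) r) := by
    rw [eS]
    simp only [dot]
    rw [← e1, ← e2, ← e3]
    field_simp
    ring
  rw [e4]
  linarith

/-- the check for all triples -/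
def checkAll (X Y H : Fin n → ℤ) (Q : ℤ) : Bool :=
  (List.finRange n).all fun i => (List.finRange n).all fun j => (List.finRange n).all fun k =>
    !(decide (i < j) && decide (j < k)) || ok Q (X i) (Y i) (H i) (X j) (Y j) (H j) (X k) (Y k) (H k)

lemma convex_half (a b c : ℝ) : Convex ℝ {v : Plane | dot a b v ≤ c} := by
  intro p hp q hq s t hs ht hst
  simp only [mem_ofPred_eq] at *
  rw [dot_add, dot_smul, dot_smul]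
  calc s * dot a b p + t * dot a b q ≤ s * c + t * c := by gcongr
    _ = c := by rw [← add_mul, hst, one_mul]

/-- **The criterion.** -/
theorem cover {X Y H : Fin n → ℤ} {Q : ℤ} (hQ : 0 < Q) (hn : 3 ≤ n)
    (hc : ∀ i j k : Fin n, i < j → j < k →
      ok Q (X i) (Y i) (H i) (X j) (Y j) (H j) (X k) (Y k) (H k) = true) :
    IsTranslationCover (poly X Y H Q) := by
  classical
  intro γ hγ
  have hcomp : ∀ i : Fin n, ∃ t ∈ Icc (0 : ℝ) 1, ∀ s ∈ Icc (0 : ℝ) 1,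
      dot (X i) (Y i) (γ s) ≤ dot (X i) (Y i) (γ t) := by
    intro i
    have := isCompact_Icc.exists_isMaxOn (nonempty_Icc.2 (zero_le_one (α := ℝ)))
      ((continuous_dot (X i) (Y i)).comp_continuousOn hγ.1)
    obtain ⟨t, ht, hm⟩ := this
    exact ⟨t, ht, fun s hs => hm hs⟩
  choose τ hτ hmax using hcomp
  set F : Fin n → Set Plane := fun i =>
    {v | dot (X i) (Y i) v ≤ (H i : ℝ) / Q - dot (X i) (Y i) (γ (τ i))} with hF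
  have sorted : ∀ i j k : Fin n, i < j → j < k → ∃ v : Plane, v ∈ F i ∧ v ∈ F j ∧ v ∈ F k := by
    intro i j k hij hjk
    have h := hc i j k hij hjk
    simp only [ok, Bool.or_eq_true] at h
    rcases h with ((h | h) | h) | h
    · exact of_dir h _ _ _
    · exact of_dir h _ _ _
    · exact of_dir h _ _ _
    · exact of_good hQ h (perim hγ (hτ i) (hτ j) (hτ k))
  have three : ∀ i j k : Fin n, i ≠ j → i ≠ k → j ≠ k → ∃ v : Plane, v ∈ F i ∧ v ∈ F j ∧ v ∈ F k := by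
    intro i j k h1 h2 h3
    rcases lt_or_gt_of_ne h1 with a | a <;> rcases lt_or_gt_of_ne h2 with b | b <;>
      rcases lt_or_gt_of_ne h3 with c | c
    · exact sorted i j k a c
    · obtain ⟨v, q1, q2, q3⟩ := sorted i k j b c; exact ⟨v, q1, q3, q2⟩
    · exact absurd (a.trans c) (not_lt.2 b.le)
    · obtain ⟨v, q1, q2, q3⟩ := sorted k i j b a; exact ⟨v, q2, q3, q1⟩
    · obtain ⟨v, q1, q2, q3⟩ := sorted j i k a b; exact ⟨v, q2, q1, q3⟩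
    · exact absurd (a.trans b) (not_lt.2 c.le)
    · obtain ⟨v, q1, q2, q3⟩ := sorted j k i c b; exact ⟨v, q3, q1, q2⟩
    · obtain ⟨v, q1, q2, q3⟩ := sorted k j i c a; exact ⟨v, q3, q2, q1⟩
  have helly := Convex.helly_theorem (𝕜 := ℝ) (F := F) (s := Finset.univ)
    (by simp; exact hn) (fun i _ => convex_half _ _ _) (by
      intro I _ hI
      have hI3 : I.card = 3 := by rw [hI]; simp
      obtain ⟨x, y, z, h1, h2, h3, rfl⟩ := Finset.card_eq_three.1 hI3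
      obtain ⟨v, q1, q2, q3⟩ := three x y z h1 h2 h3
      refine ⟨v, ?_⟩
      simp only [mem_iInter]
      intro i hi
      simp only [Finset.mem_insert, Finset.mem_singleton] at hi
      rcases hi with rfl | rfl | rfl
      · exact q1
      · exact q2
      · exact q3)
  obtain ⟨v, hv⟩ := helly
  refine ⟨v, fun t ht i => ?_⟩
  simp only [mem_iInter] at hv
  have h1 : dot (X i) (Y i) v ≤ (H i : ℝ) / Q - dot (X i) (Y i) (γ (τ i)) :=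
    hv i (Finset.mem_univ i)
  have h2 := hmax i t ht
  rw [dot_add]
  linarith

end Pool.Agent.V7H47.TC
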