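import Pool.Agent.V7H47.TC.Area

/-!
# A polygon with 33 edges

Each row of `rows` is `(x, y, h, v, w)`: the edge on the line `x X + y Y = h / 10 ^ 6` and a point
`(v, w) / 10 ^ 6` near its first vertex.
-/

set_option autoImplicit false
set_option maxRecDepth 100000

open Set MeasureTheory

namespace Pool.Agent.V7H47.TC

/-- the data -/
def rows : List (ℤ × ℤ × ℤ × ℤ × ℤ) :=
  [(259, 966, 216035981, 263927, 152877),
   (203, 979, 205670812, 223121, 163818),
   (158, 987, 199392785, 170572, 174714),
   (110, 994, 197375497, 69857, 190837),
   (62, 998, 195981565, 45171, 193569),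
   (14, 1000, 195360758, 21061, 195066),
   (-33, 999, 195332096, -3548, 195411),
   (-78, 997, 196177171, -27429, 194622),
   (-122, 993, 197591742, -49684, 192881),
   (-166, 986, 199421552, -71839, 190159),
   (-226, 974, 208026562, -177878, 172307),
   (-966, -259, 215977748, -264396, 152232),
   (-950, -314, 205813595, -253367, 111096),
   (-934, -357, 199437009, -236567, 60268),
   (-916, -402, 197430644, -199995, -35412),
   (-895, -446, 195978321, -190186, -57763),
   (-873, -488, 195372282, -179347, -79514),
   (-849, -528, 195380002, -167506, -100696),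
   (-825, -566, 196254058, -154959, -120871),
   (-798, -602, 197433029, -142232, -139423),
   (-771, -637, 199463251, -128734, -157315),
   (-730, -683, 208064225, -60025, -240478),
   (707, -707, 215891713, 353, -305011),
   (746, -666, 205760923, 29864, -275500),
   (776, -630, 199277642, 65965, -235062),
   (806, -592, 197295145, 130685, -155343),
   (833, -553, 195906618, 144935, -135943),
   (859, -512, 195277117, 158333, -115760),
   (882, -471, 195332217, 170967, -94564),
   (902, -431, 196033487, 182184, -73560),
   (921, -390, 197495622, 191883, -53260),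
   (937, -349, 199366990, 200613, -32645),
   (957, -291, 208090368, 238198, 68265)]

def rX (i : Fin 33) : ℤ := (rows.getD i.val 0).1
def rY (i : Fin 33) : ℤ := (rows.getD i.val 0).2.1
def rH (i : Fin 33) : ℤ := (rows.getD i.val 0).2.2.1
def rV (i : Fin 33) : ℤ := (rows.getD i.val 0).2.2.2.1
def rW (i : Fin 33) : ℤ := (rows.getD i.val 0).2.2.2.2

/-- all pairs of a list, in order -/
def all2 {α : Type} (P : α → α → Bool) : List α → Bool
  | [] => true
  | a :: l => l.all (P a) && all2 P l

/-- all triples of a list, in order -/
def all3 {α : Type} (P : α → α → α → Bool) : List α → Bool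
  | [] => true
  | a :: l => all2 (P a) l && all3 P l

lemma all2_get {α : Type} (d : α) {P : α → α → Bool} {l : List α} (h : all2 P l = true) :
    ∀ i j : ℕ, i < j → j < l.length → P (l.getD i d) (l.getD j d) = true := by
  induction l with
  | nil => intro i j _ hj; simp at hj
  | cons a l ih =>
    simp only [all2, Bool.and_eq_true, List.all_eq_true] at h
    intro i j hij hj
    cases j with
    | zero => omega
    | succ j =>
      have hj' : j < l.length := by simpa using hj
      cases i with
      | zero =>
        simp only [List.getD_cons_zero, List.getD_cons_succ]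
        rw [List.getD_eq_getElem _ _ hj']
        exact h.1 _ (List.getElem_mem hj')
      | succ i =>
        simp only [List.getD_cons_succ]
        exact ih h.2 i j (by omega) hj'

lemma all3_get {α : Type} (d : α) {P : α → α → α → Bool} {l : List α} (h : all3 P l = true) :
    ∀ i j k : ℕ, i < j → j < k → k < l.length →
      P (l.getD i d) (l.getD j d) (l.getD k d) = true := by
  induction l with
  | nil => intro i j k _ _ hk; simp at hk
  | cons a l ih =>
    simp only [all3, Bool.and_eq_true] at h
    intro i j k hij hjk hk
    cases j with
    | zero => omega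
    | succ j =>
      cases k with
      | zero => omega
      | succ k =>
        have hk' : k < l.length := by simpa using hk
        cases i with
        | zero =>
          simp only [List.getD_cons_zero, List.getD_cons_succ]
          exact all2_get d h.1 j k (by omega) hk'
        | succ i =>
          simp only [List.getD_cons_succ]
          exact ih h.2 i j k (by omega) (by omega) hk'

/-- the check of a triple of rows -/
def okr (a b c : ℤ × ℤ × ℤ × ℤ × ℤ) : Bool :=
  ok 1000000 a.1 a.2.1 a.2.2.1 b.1 b.2.1 b.2.2.1 c.1 c.2.1 c.2.2.1

lemma rows_ok : all3 okr rows = true := by decide +kernel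

lemma rows_triple (i j k : Fin 33) (hij : i < j) (hjk : j < k) :
    ok 1000000 (rX i) (rY i) (rH i) (rX j) (rY j) (rH j) (rX k) (rY k) (rH k) = true :=
  all3_get (0 : ℤ × ℤ × ℤ × ℤ × ℤ) rows_ok i.val j.val k.val hij hjk k.isLt

lemma rows_edge : ∀ i : Fin 33, 0 < rH i ∧ rH i ≤ rX i * rV i + rY i * rW i ∧
    rH i ≤ rX i * rV (i + 1) + rY i * rW (i + 1) ∧ 0 < rV i * rW (i + 1) - rW i * rV (i + 1) := by
  decide +kernel

lemma rows_one : 0 < rV 0 * rW 11 - rW 0 * rV 11 := by decide +kernel
lemma rows_two : 0 < rV 11 * rW 22 - rW 11 * rV 22 := by decide +kernel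
lemma rows_thr : 0 < rV 22 * rW 0 - rW 22 * rV 0 := by decide +kernel

lemma rows_area : ∑ i : Fin 33, (rV i * rW (i + 1) - rW i * rV (i + 1)) = 324993363423 := by decide +kernel

end Pool.Agent.V7H47.TC
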