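import Mathlib

/-!
# Translation covers of closed curves: geometry in the plane
-/

set_option autoImplicit false

open Set MeasureTheory

namespace Pool.Agent.V7H47.TC

/-- The Euclidean plane. -/
abbrev Plane := EuclideanSpace ℝ (Fin 2)

/-- A closed worm: a continuous closed curve of length `1`. -/
def IsClosedWorm (γ : ℝ → Plane) : Prop :=
  ContinuousOn γ (Icc 0 1) ∧ γ 0 = γ 1 ∧ eVariationOn γ (Icc 0 1) = 1

/-- A translation cover for closed worms. -/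
def IsTranslationCover (R : Set Plane) : Prop :=
  ∀ γ, IsClosedWorm γ → ∃ v : Plane, ∀ t ∈ Icc (0 : ℝ) 1, γ t + v ∈ R

/-- The inner product with the vector `(a, b)`. -/
def dot (a b : ℝ) (p : Plane) : ℝ := a * p 0 + b * p 1

lemma dot_add (a b : ℝ) (p q : Plane) : dot a b (p + q) = dot a b p + dot a b q := by
  simp [dot]; ring

lemma dot_smul (a b s : ℝ) (p : Plane) : dot a b (s • p) = s * dot a b p := by
  simp [dot]; ring

lemma continuous_dot (a b : ℝ) : Continuous (dot a b) := by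
  unfold dot; fun_prop

lemma dist_sq (p q : Plane) : dist p q ^ 2 = (p 0 - q 0) ^ 2 + (p 1 - q 1) ^ 2 := by
  rw [EuclideanSpace.dist_eq, Real.sq_sqrt (by positivity), Fin.sum_univ_two, Real.dist_eq,
    Real.dist_eq, sq_abs, sq_abs]

lemma dot_le {a b M : ℝ} (hM : 0 ≤ M) (h : a ^ 2 + b ^ 2 ≤ M ^ 2) (p q : Plane) :
    dot a b p - dot a b q ≤ M * dist p q := by
  have h1 := dist_sq p q
  have h2 : (0 : ℝ) ≤ M * dist p q := by positivity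
  refine le_of_sq_le_sq ?_ h2
  have h3 : dot a b p - dot a b q = a * (p 0 - q 0) + b * (p 1 - q 1) := by
    unfold dot; ring
  rw [h3, mul_pow, h1]
  have h4 : 0 ≤ (p 0 - q 0) ^ 2 + (p 1 - q 1) ^ 2 := by positivity
  have h5 := mul_le_mul_of_nonneg_right h h4
  nlinarith [sq_nonneg (a * (p 1 - q 1) - b * (p 0 - q 0))]

/-- three vectors `w_i` with sum `0`, bounded by a centre -/
lemma three_dot {x₁ y₁ x₂ y₂ x₃ y₃ a b M P : ℝ} (hM : 0 ≤ M)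
    (hx : x₁ + x₂ + x₃ = 0) (hy : y₁ + y₂ + y₃ = 0)
    (hA : a ^ 2 + b ^ 2 ≤ M ^ 2) (hB : (a + x₂) ^ 2 + (b + y₂) ^ 2 ≤ M ^ 2)
    (hC : (a - x₁) ^ 2 + (b - y₁) ^ 2 ≤ M ^ 2) (p q r : Plane)
    (hP : dist p q + dist q r + dist r p ≤ P) :
    dot x₁ y₁ p + dot x₂ y₂ q + dot x₃ y₃ r ≤ M * P := by
  have h1 := dot_le hM hA p q
  have h2 := dot_le hM hB q r
  have h3 := dot_le hM hC r p
  have h4 : dot x₁ y₁ p + dot x₂ y₂ q + dot x₃ y₃ r = (dot a b p - dot a b q) +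
      (dot (a + x₂) (b + y₂) q - dot (a + x₂) (b + y₂) r) +
      (dot (a - x₁) (b - y₁) r - dot (a - x₁) (b - y₁) p) := by
    have e1 : x₃ = -x₁ - x₂ := by linarith
    have e2 : y₃ = -y₁ - y₂ := by linarith
    rw [e1, e2]
    unfold dot; ring
  rw [h4]
  have h5 := mul_le_mul_of_nonneg_left hP hM
  linarith

/-- the circumcentre -/
lemma circum {x₁ y₁ x₂ y₂ M : ℝ} (h0 : x₁ * y₂ - y₁ * x₂ ≠ 0)
    (h : (x₁ ^ 2 + y₁ ^ 2) * (x₂ ^ 2 + y₂ ^ 2) * ((x₁ + x₂) ^ 2 + (y₁ + y₂) ^ 2) ≤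
      4 * (x₁ * y₂ - y₁ * x₂) ^ 2 * M ^ 2) :
    ∃ a b : ℝ, a ^ 2 + b ^ 2 ≤ M ^ 2 ∧ (a + x₂) ^ 2 + (b + y₂) ^ 2 ≤ M ^ 2 ∧
      (a - x₁) ^ 2 + (b - y₁) ^ 2 ≤ M ^ 2 := by
  set D := x₁ * y₂ - y₁ * x₂ with hD
  -- centre `o` relative to `A`: `o · x₂ = |x₂|²/2`, `o · (-x₁) = |x₁|²/2`
  set n₁ := x₁ ^ 2 + y₁ ^ 2 with hn₁
  set n₂ := x₂ ^ 2 + y₂ ^ 2 with hn₂
  set a := (n₂ * y₁ + n₁ * y₂) / (2 * D) with ha
  set b := -(n₂ * x₁ + n₁ * x₂) / (2 * D) with hb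
  have hD2 : (0 : ℝ) < 4 * D ^ 2 := by positivity
  have key : a ^ 2 + b ^ 2 ≤ M ^ 2 := by
    have e : a ^ 2 + b ^ 2 = (n₁ * n₂ * ((x₁ + x₂) ^ 2 + (y₁ + y₂) ^ 2)) / (4 * D ^ 2) := by
      rw [ha, hb]
      field_simp
      rw [hn₁, hn₂]
      ring
    rw [e, div_le_iff₀ hD2]
    linarith
  have e1 : 2 * (a * x₂ + b * y₂) = -n₂ := by
    rw [ha, hb]
    field_simp
    rw [hD, hn₁, hn₂]
    ring
  have e2 : 2 * (a * x₁ + b * y₁) = n₁ := by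
    rw [ha, hb]
    field_simp
    rw [hD, hn₁, hn₂]
    ring
  refine ⟨a, b, key, ?_, ?_⟩
  · have : (a + x₂) ^ 2 + (b + y₂) ^ 2 = a ^ 2 + b ^ 2 := by
      have : (a + x₂) ^ 2 + (b + y₂) ^ 2 = a ^ 2 + b ^ 2 + (2 * (a * x₂ + b * y₂) + n₂) := by
        rw [hn₂]; ring
      rw [this, e1]; ring
    rw [this]; exact key
  · have : (a - x₁) ^ 2 + (b - y₁) ^ 2 = a ^ 2 + b ^ 2 := by
      have : (a - x₁) ^ 2 + (b - y₁) ^ 2 = a ^ 2 + b ^ 2 + (n₁ - 2 * (a * x₁ + b * y₁)) := by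
        rw [hn₁]; ring
      rw [this, e2]; ring
    rw [this]; exact key

/-- three half-planes with positively dependent normals -/
lemma three_half {x₁ y₁ x₂ y₂ x₃ y₃ b₁ b₂ b₃ : ℝ} (h3 : 0 < x₁ * y₂ - y₁ * x₂)
    (hb : 0 ≤ (x₂ * y₃ - y₂ * x₃) * b₁ + (x₃ * y₁ - y₃ * x₁) * b₂ + (x₁ * y₂ - y₁ * x₂) * b₃) :
    ∃ v : Plane, dot x₁ y₁ v ≤ b₁ ∧ dot x₂ y₂ v ≤ b₂ ∧ dot x₃ y₃ v ≤ b₃ := by
  set D := x₁ * y₂ - y₁ * x₂ with hD
  have hD0 : D ≠ 0 := h3.ne'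
  refine ⟨!₂[(b₁ * y₂ - b₂ * y₁) / D, (b₂ * x₁ - b₁ * x₂) / D], ?_, ?_, ?_⟩
  · have : dot x₁ y₁ !₂[(b₁ * y₂ - b₂ * y₁) / D, (b₂ * x₁ - b₁ * x₂) / D] = b₁ := by
      simp only [dot, PiLp.toLp_apply, Matrix.cons_val_zero, Matrix.cons_val_one]
      field_simp
      rw [hD]; ring
    exact this.le
  · have : dot x₂ y₂ !₂[(b₁ * y₂ - b₂ * y₁) / D, (b₂ * x₁ - b₁ * x₂) / D] = b₂ := by
      simp only [dot, PiLp.toLp_apply, Matrix.cons_val_zero, Matrix.cons_val_one]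
      field_simp
      rw [hD]; ring
    exact this.le
  · have : dot x₃ y₃ !₂[(b₁ * y₂ - b₂ * y₁) / D, (b₂ * x₁ - b₁ * x₂) / D] * D =
        b₃ * D - ((x₂ * y₃ - y₂ * x₃) * b₁ + (x₃ * y₁ - y₃ * x₁) * b₂ + D * b₃) := by
      simp only [dot, PiLp.toLp_apply, Matrix.cons_val_zero, Matrix.cons_val_one]
      field_simp
      ring
    have h4 : dot x₃ y₃ !₂[(b₁ * y₂ - b₂ * y₁) / D, (b₂ * x₁ - b₁ * x₂) / D] * D ≤ b₃ * D := by
      rw [this]; linarith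
    exact le_of_mul_le_mul_right h4 h3

/-- three half-planes with normals in an open half-plane -/
lemma three_dir {x₁ y₁ x₂ y₂ x₃ y₃ b₁ b₂ b₃ d e : ℝ} (h1 : 0 < x₁ * d + y₁ * e)
    (h2 : 0 < x₂ * d + y₂ * e) (h3 : 0 < x₃ * d + y₃ * e) :
    ∃ v : Plane, dot x₁ y₁ v ≤ b₁ ∧ dot x₂ y₂ v ≤ b₂ ∧ dot x₃ y₃ v ≤ b₃ := by
  set s := |b₁| / (x₁ * d + y₁ * e) + |b₂| / (x₂ * d + y₂ * e) + |b₃| / (x₃ * d + y₃ * e) with hs
  have q1 : 0 ≤ |b₁| / (x₁ * d + y₁ * e) := by positivity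
  have q2 : 0 ≤ |b₂| / (x₂ * d + y₂ * e) := by positivity
  have q3 : 0 ≤ |b₃| / (x₃ * d + y₃ * e) := by positivity
  have gen : ∀ {x y b : ℝ}, 0 < x * d + y * e → |b| / (x * d + y * e) ≤ s →
      dot x y !₂[-(s * d), -(s * e)] ≤ b := by
    intro x y b h4 h5
    rw [div_le_iff₀ h4] at h5
    have h6 := neg_abs_le b
    simp only [dot, PiLp.toLp_apply, Matrix.cons_val_zero, Matrix.cons_val_one]
    nlinarith
  refine ⟨!₂[-(s * d), -(s * e)], gen h1 (by linarith), gen h2 (by linarith), gen h3 (by linarith)⟩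

/-- the perimeter of three points of a closed worm, ordered parameters -/
lemma perim_aux {γ : ℝ → Plane} (hγ : IsClosedWorm γ) {s t r : ℝ} (h0 : 0 ≤ s) (hst : s ≤ t)
    (htr : t ≤ r) (hr : r ≤ 1) :
    dist (γ s) (γ t) + dist (γ t) (γ r) + dist (γ r) (γ s) ≤ 1 := by
  obtain ⟨-, hcl, hlen⟩ := hγ
  have e1 := eVariationOn.Icc_add_Icc γ (s := univ) h0 (hst.trans (htr.trans hr)) (mem_univ s)
  have e2 := eVariationOn.Icc_add_Icc γ (s := univ) hst (htr.trans hr) (mem_univ t)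
  have e3 := eVariationOn.Icc_add_Icc γ (s := univ) htr hr (mem_univ r)
  simp only [univ_inter] at e1 e2 e3
  have d1 : edist (γ 0) (γ s) ≤ eVariationOn γ (Icc 0 s) :=
    eVariationOn.edist_le γ (left_mem_Icc.2 h0) (right_mem_Icc.2 h0)
  have d2 : edist (γ s) (γ t) ≤ eVariationOn γ (Icc s t) :=
    eVariationOn.edist_le γ (left_mem_Icc.2 hst) (right_mem_Icc.2 hst)
  have d3 : edist (γ t) (γ r) ≤ eVariationOn γ (Icc t r) :=
    eVariationOn.edist_le γ (left_mem_Icc.2 htr) (right_mem_Icc.2 htr)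
  have d4 : edist (γ r) (γ 1) ≤ eVariationOn γ (Icc r 1) :=
    eVariationOn.edist_le γ (left_mem_Icc.2 hr) (right_mem_Icc.2 hr)
  have h : edist (γ 0) (γ s) + (edist (γ s) (γ t) + (edist (γ t) (γ r) + edist (γ r) (γ 1))) ≤ 1 := by
    rw [← hlen, ← e1, ← e2, ← e3]
    gcongr
  rw [edist_dist, edist_dist, edist_dist, edist_dist, ← ENNReal.ofReal_add (by positivity) (by positivity),
    ← ENNReal.ofReal_add (by positivity) (by positivity),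
    ← ENNReal.ofReal_add (by positivity) (by positivity), ENNReal.ofReal_le_one] at h
  have h5 := dist_triangle (γ r) (γ 1) (γ s)
  rw [← hcl] at h5
  rw [← hcl] at h
  linarith

lemma perim {γ : ℝ → Plane} (hγ : IsClosedWorm γ) {s t r : ℝ} (hs : s ∈ Icc (0 : ℝ) 1)
    (ht : t ∈ Icc (0 : ℝ) 1) (hr : r ∈ Icc (0 : ℝ) 1) :
    dist (γ s) (γ t) + dist (γ t) (γ r) + dist (γ r) (γ s) ≤ 1 := by
  obtain ⟨hs0, hs1⟩ := hs
  obtain ⟨ht0, ht1⟩ := ht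
  obtain ⟨hr0, hr1⟩ := hr
  have c1 := dist_comm (γ s) (γ t)
  have c2 := dist_comm (γ t) (γ r)
  have c3 := dist_comm (γ r) (γ s)
  rcases le_total s t with a | a <;> rcases le_total t r with b | b <;>
    rcases le_total s r with c | c
  · exact perim_aux hγ hs0 a b hr1
  · exact perim_aux hγ hs0 a b hr1
  · have := perim_aux hγ hs0 c b ht1
    linarith
  · have := perim_aux hγ hr0 c a ht1
    linarith
  · have := perim_aux hγ ht0 a c hr1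
    linarith
  · have := perim_aux hγ ht0 b c hs1
    linarith
  · have := perim_aux hγ hr0 b a hs1
    linarith
  · have := perim_aux hγ hr0 b a hs1
    linarith

end Pool.Agent.V7H47.TC
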